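import Pool.Agent.N22.OC.Frb
import Mathlib.NumberTheory.LSeries.PrimesInAP

/-!
# Degree classes of the characters of `G × F`, for a Frobenius group `F` of order `r k`
-/

set_option autoImplicit false
set_option linter.unusedSectionVars false

open scoped BigOperators Classical

noncomputable section

namespace Pool.Agent.N22.OC

open Pool.Agent.Q90.WR Pool.Agent.Helper884 Pool.Agent.N84.IN
open Pool.Agent.Helper884.IC (IsIrrChar)

section frobgroup

/-- multiplication by a unit, as an automorphism of the cyclic group of order `r` -/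
def mulU (r : ℕ) : (ZMod r)ˣ →* MulAut (Multiplicative (ZMod r)) where
  toFun u :=
    { toFun := fun x => Multiplicative.ofAdd ((u : ZMod r) * x.toAdd)
      invFun := fun x => Multiplicative.ofAdd (((u⁻¹ : (ZMod r)ˣ) : ZMod r) * x.toAdd)
      left_inv := fun x => by simp
      right_inv := fun x => by simp
      map_mul' := fun x y => by simp [mul_add] }
  map_one' := by
    ext x
    simp
  map_mul' u v := by
    ext x
    simp [mul_assoc]

theorem mulU_apply {r : ℕ} (u : (ZMod r)ˣ) (x : Multiplicative (ZMod r)) :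
    mulU r u x = Multiplicative.ofAdd ((u : ZMod r) * x.toAdd) := rfl

theorem mulU_free {r : ℕ} [hr : Fact r.Prime] (K : Subgroup (ZMod r)ˣ) :
    Free ((mulU r).comp K.subtype) := by
  intro l hl t ht
  by_contra hne
  apply hl
  have h1 : (((t : (ZMod r)ˣ) : ZMod r) - 1) ≠ 0 := by
    intro h
    apply hne
    apply Subtype.ext
    apply Units.ext
    rw [sub_eq_zero] at h
    exact h
  refine MonoidHom.ext fun x => ?_
  have h2 := ht (Multiplicative.ofAdd ((((t : (ZMod r)ˣ) : ZMod r) - 1)⁻¹ * x.toAdd))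
  have h3 : x * Multiplicative.ofAdd ((((t : (ZMod r)ˣ) : ZMod r) - 1)⁻¹ * x.toAdd) =
      ((mulU r).comp K.subtype) t
        (Multiplicative.ofAdd ((((t : (ZMod r)ˣ) : ZMod r) - 1)⁻¹ * x.toAdd)) := by
    apply Multiplicative.toAdd.injective
    rw [MonoidHom.comp_apply, mulU_apply]
    simp only [toAdd_mul, toAdd_ofAdd, Subgroup.coe_subtype]
    field_simp
    ring
  rw [← h3, map_mul] at h2
  have h4 : l x = 1 := by
    rwa [mul_eq_right] at h2
  rw [h4]
  rfl

/-- **The Frobenius groups of order `r k`.** -/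
theorem exists_frob (r k : ℕ) [hr : Fact r.Prime] (hk : k ∣ r - 1) (hk2 : 2 ≤ k) :
    ∃ (F : Type) (_ : Group F) (_ : Fintype F), Nat.card F = r * k ∧
      (∀ χ : F → ℂ, IsIrrChar χ → χ 1 = 1 ∨ χ 1 = k) ∧
      ((IC.Irr F).filter fun χ => χ 1 = 1).card = k ∧
      k * ((IC.Irr F).filter fun χ => χ 1 = (k : ℂ)).card + 1 = r := by
  obtain ⟨g, hg⟩ := IsCyclic.exists_ofOrder_eq_natCard (α := (ZMod r)ˣ)
  have hc : Nat.card (ZMod r)ˣ = r - 1 := by
    rw [Nat.card_eq_fintype_card, ZMod.card_units]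
  have hr1 := hr.out.one_lt
  rw [hc] at hg
  have h1 : orderOf (g ^ (orderOf g / k)) = k := by
    apply orderOf_pow_orderOf_div
    · rw [hg]; omega
    · rw [hg]; exact hk
  set K := Subgroup.zpowers (g ^ (orderOf g / k)) with hK
  have h2 : Nat.card K = k := by rw [hK, Nat.card_zpowers, h1]
  have hf : Free ((mulU r).comp K.subtype) := mulU_free K
  have hN : Nat.card (Multiplicative (ZMod r)) = r := by
    rw [Nat.card_congr Multiplicative.toAdd, Nat.card_zmod]
  have : Fintype K := Fintype.ofFinite K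
  refine ⟨Multiplicative (ZMod r) ⋊[(mulU r).comp K.subtype] K, inferInstance,
    Pool.Agent.N19.RB.instFintypeSD, ?_, ?_, ?_, ?_⟩
  · rw [Pool.Agent.N19.RB.card_sd, h2, hN]
  · intro χ hχ
    have := deg_cases hf hχ
    rwa [h2] at this
  · have := card_one hf (by rw [h2]; exact hk2)
    rwa [h2] at this
  · have := card_big hf (by rw [h2]; exact hk2)
    rwa [h2, hN] at this

end frobgroup

section prod

variable {p : ℕ} [hp : Fact p.Prime] {B : Subgroup (ZMod p)ˣ}

/-- degree classes for a direct product -/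
theorem numCls_prod {G H : Type} [Group G] [Finite G] [Group H] [Fintype H] {k : ℕ}
    (hk : (k : ZMod p) ≠ 0) (hk2 : 2 ≤ k) (hd : ∀ χ : H → ℂ, IsIrrChar χ → χ 1 = 1 ∨ χ 1 = k)
    (a : (ZMod p)ˣ ⧸ B) :
    numCls p B a (G × H) = ((IC.Irr H).filter fun χ => χ 1 = 1).card * numCls p B a G +
      ((IC.Irr H).filter fun χ => χ 1 = (k : ℂ)).card * numCls p B (a * (cl B hk)⁻¹) G := by
  have := Fintype.ofFinite G
  have hK0 : (k : ℂ) ≠ 1 := by
    intro h
    have : k = 1 := by exact_mod_cast h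
    omega
  rw [numCls_eq, numCls_eq, numCls_eq, Finset.card_filter]
  rw [sum_Irr_prod, Finset.sum_product_right]
  have h1 : ∀ ψ ∈ IC.Irr H, ∑ θ ∈ IC.Irr G, (if HasCls p B a (box θ ψ) then 1 else 0) =
      (if ψ 1 = 1 then ((IC.Irr G).filter fun χ => HasCls p B a χ).card else 0) +
      (if ψ 1 = (k : ℂ) then ((IC.Irr G).filter fun χ => HasCls p B (a * (cl B hk)⁻¹) χ).card
        else 0) := by
    intro ψ hψ
    rcases hd ψ (IC.mem_Irr.mp hψ) with h | h
    · rw [if_pos h, if_neg (by rw [h]; exact fun h' => hK0 h'.symm), add_zero,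
        Finset.card_filter]
      refine Finset.sum_congr rfl fun θ _ => ?_
      have : (box θ ψ) 1 = θ 1 := by
        change θ 1 * ψ 1 = θ 1
        rw [h, mul_one]
      rw [if_congr (hasCls_congr this a) rfl rfl]
    · rw [if_neg (by rw [h]; exact hK0), if_pos h, zero_add, Finset.card_filter]
      refine Finset.sum_congr rfl fun θ hθ => ?_
      have h2 : (box θ ψ) 1 = k * θ 1 := by
        change θ 1 * ψ 1 = k * θ 1
        rw [h, mul_comm]
      obtain ⟨d, -, hd'⟩ := deg_pos (IC.mem_Irr.mp hθ)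
      rw [if_congr (hasCls_mul hk hd' h2 a) rfl rfl]
  rw [Finset.sum_congr rfl h1, Finset.sum_add_distrib, ← Finset.sum_filter, ← Finset.sum_filter,
    Finset.sum_const, Finset.sum_const, smul_eq_mul, smul_eq_mul]

/-- Sylow subgroups of `G × H`, for a `p'`-group `H` -/
theorem exists_sylow_prod {G H : Type} [Group G] [Finite G] [Group H] [Finite H]
    (hH : ¬ p ∣ Nat.card H) (P : Sylow p G) : ∃ Q : Sylow p (G × H),
      Nonempty (Subgroup.normalizer ((Q : Subgroup (G × H)) : Set (G × H)) ≃*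
        Subgroup.normalizer ((P : Subgroup G) : Set G) × H) := by
  have h1 : IsPGroup p ((P : Subgroup G).prod (⊥ : Subgroup H)) := by
    obtain ⟨n, hn⟩ := IsPGroup.iff_card.mp P.isPGroup'
    apply IsPGroup.iff_card.mpr
    refine ⟨n, ?_⟩
    rw [Nat.card_congr ((P : Subgroup G).prodEquiv (⊥ : Subgroup H)).toEquiv, Nat.card_prod, hn]
    simp
  have h2 : ¬ p ∣ ((P : Subgroup G).prod (⊥ : Subgroup H)).index := by
    rw [Subgroup.index_prod, Subgroup.index_bot]
    intro h
    rcases (Nat.Prime.dvd_mul hp.out).mp h with h | h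
    · exact P.not_dvd_index h
    · exact hH h
  refine ⟨h1.toSylow h2, ⟨?_⟩⟩
  have hm : ∀ x : G × H, x ∈ Subgroup.normalizer
      (((P : Subgroup G).prod (⊥ : Subgroup H)) : Set (G × H)) ↔
      x.1 ∈ Subgroup.normalizer ((P : Subgroup G) : Set G) := by
    intro x
    simp only [Pool.Agent.Q90.WR.mem_normalizer, Subgroup.mem_prod, Subgroup.mem_bot]
    constructor
    · intro h g
      have := h (g, 1)
      simpa using this
    · intro h y
      rw [h y.1]
      simp
  exact
    { toFun := fun x => (⟨x.1.1, (hm _).mp x.2⟩, x.1.2)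
      invFun := fun y => ⟨(y.1.1, y.2), (hm _).mpr y.1.2⟩
      left_inv := fun _ => rfl
      right_inv := fun _ => rfl
      map_mul' := fun _ _ => rfl }

/-- the difference between `G` and `N_G(P)` -/
def Df (p : ℕ) [Fact p.Prime] (B : Subgroup (ZMod p)ˣ) (a : (ZMod p)ˣ ⧸ B) (G : Type) [Group G]
    (P : Sylow p G) : ℤ :=
  (numCls p B a G : ℤ) - numCls p B a (Subgroup.normalizer ((P : Subgroup G) : Set G))

/-- **The recursion.** -/
theorem Df_frob {G : Type} [Group G] [Finite G] (P : Sylow p G) {k r s : ℕ} [hr : Fact r.Prime]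
    (hrp : r ≠ p) (hk : (k : ZMod p) ≠ 0) (hk2 : 2 ≤ k) (hs : r = k * s + 1) :
    ∃ (F : Type) (_ : Group F) (_ : Fintype F) (Q : Sylow p (G × F)), Nat.card F = r * k ∧
      ∀ a : (ZMod p)ˣ ⧸ B, Df p B a (G × F) Q = k * Df p B a G P +
        s * Df p B (a * (cl B hk)⁻¹) G P := by
  obtain ⟨F, i1, i2, h1, h2, h3, h4⟩ := exists_frob r k ⟨s, by omega⟩ hk2
  have h5 : ((IC.Irr F).filter fun χ => χ 1 = (k : ℂ)).card = s := by
    have h6 : k * ((IC.Irr F).filter fun χ => χ 1 = (k : ℂ)).card = k * s := by omega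
    exact Nat.eq_of_mul_eq_mul_left (by omega) h6
  have h6 : ¬ p ∣ Nat.card F := by
    rw [h1]
    intro h
    rcases (Nat.Prime.dvd_mul hp.out).mp h with h | h
    · exact hrp ((Nat.prime_dvd_prime_iff_eq hp.out hr.out).mp h).symm
    · exact hk ((ZMod.natCast_eq_zero_iff _ _).mpr h)
  obtain ⟨Q, ⟨e⟩⟩ := exists_sylow_prod h6 P
  refine ⟨F, i1, i2, Q, h1, fun a => ?_⟩
  unfold Df
  rw [numCls_congr e, numCls_prod hk hk2 h2, numCls_prod hk hk2 h2, h3, h5]
  push_cast
  ring

end prod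

section dirichlet

/-- Dirichlet's theorem -/
theorem exists_prime (k l : ℕ) (hk : 2 ≤ k) (hl : l ∣ k) (hl0 : l ≠ 0) (n : ℕ) :
    ∃ r s : ℕ, r.Prime ∧ n < r ∧ r = k * s + 1 ∧ (s : ℤ) ≡ 1 [ZMOD l] := by
  have hk0 : k * l ≠ 0 := Nat.mul_ne_zero (by omega) hl0
  have : NeZero (k * l) := ⟨hk0⟩
  have hcop : Nat.Coprime (1 + k) (k * l) := by
    rw [Nat.coprime_mul_iff_right]
    have h1 : Nat.Coprime (1 + k) k := by simp
    exact ⟨h1, h1.coprime_dvd_right hl⟩
  have hu : IsUnit (((1 + k : ℕ) : ZMod (k * l))) := (ZMod.isUnit_iff_coprime _ _).mpr hcop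
  obtain ⟨r, hr1, hr2, hr3⟩ := Nat.forall_exists_prime_gt_and_eq_mod hu (n + k + 1)
  rw [ZMod.natCast_eq_natCast_iff] at hr3
  have h4 : k * l ∣ r - (1 + k) := (Nat.modEq_iff_dvd' (by omega)).mp hr3.symm
  obtain ⟨j, hj⟩ := h4
  refine ⟨r, 1 + l * j, hr2, by omega, ?_, ?_⟩
  · have : r = (1 + k) + k * l * j := by omega
    rw [this]
    ring
  · push_cast
    have : (l : ℤ) * j ≡ 0 [ZMOD l] := by
      rw [Int.modEq_zero_iff_dvd]
      exact Dvd.intro _ rfl
    simp

end dirichlet

end Pool.Agent.N22.OC
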