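import Pool.Agent.N22.OC.Pm
import Mathlib.NumberTheory.DirichletCharacter.Basic

/-!
# Sums of the values of Dirichlet characters at character degrees
-/

set_option autoImplicit false
set_option linter.unusedSectionVars false

open scoped BigOperators Classical

noncomputable section

namespace Pool.Agent.N22.OC

open Pool.Agent.Q90.WR Pool.Agent.Helper884 Pool.Agent.N84.IN
open Pool.Agent.Helper884.IC (IsIrrChar)

/-- The degree of a character, as a natural number. -/
def deg {G : Type} [Group G] (χ : G → ℂ) : ℕ := ⌊(χ 1).re⌋₊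

theorem deg_eq {G : Type} [Group G] {χ : G → ℂ} {n : ℕ} (h : χ 1 = n) : deg χ = n := by
  unfold deg
  rw [h, Complex.natCast_re, Nat.floor_natCast]

theorem deg_spec {G : Type} [Group G] [Finite G] {χ : G → ℂ} (h : IsIrrChar χ) :
    χ 1 = deg χ := by
  have := Fintype.ofFinite G
  obtain ⟨n, -, hn⟩ := deg_pos h
  rw [deg_eq hn, hn]

variable {p : ℕ} [hp : Fact p.Prime]

/-- The sum of the values `ψ(χ(1))` over all irreducible complex characters `χ` of `G`. -/
def tw (ψ : DirichletCharacter ℂ p) (G : Type) [Group G] : ℂ :=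
  ∑ᶠ χ ∈ {χ : G → ℂ | IsIrrChar χ}, ψ (deg χ : ZMod p)

theorem tw_eq (ψ : DirichletCharacter ℂ p) (G : Type) [Group G] [Fintype G] :
    tw ψ G = ∑ χ ∈ IC.Irr G, ψ (deg χ : ZMod p) :=
  finsum_mem_eq_finite_toFinset_sum _ (IC.irr_finite (G := G))

theorem tw_congr (ψ : DirichletCharacter ℂ p) {H K : Type} [Group H] [Finite H] [Group K]
    [Finite K] (e : H ≃* K) : tw ψ H = tw ψ K := by
  have := Fintype.ofFinite H
  have := Fintype.ofFinite K
  rw [tw_eq, tw_eq]
  refine Finset.sum_bij' (fun χ _ => fun k => χ (e.symm k)) (fun χ _ => fun h => χ (e h)) ?_ ?_ ?_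
    ?_ ?_
  · intro χ hχ
    exact IC.mem_Irr.mpr (irr_comp e.symm (IC.mem_Irr.mp hχ))
  · intro χ hχ
    exact IC.mem_Irr.mpr (irr_comp e (IC.mem_Irr.mp hχ))
  · intro χ _
    funext h
    simp
  · intro χ _
    funext h
    simp
  · intro χ _
    have h1 : (fun k => χ (e.symm k)) 1 = χ 1 := by simp
    unfold deg
    rw [h1]

/-! ### direct products with abelian groups -/

theorem tw_abel (ψ : DirichletCharacter ℂ p) (G A : Type) [Group G] [Finite G] [CommGroup A]
    [Finite A] : tw ψ (G × A) = Nat.card A * tw ψ G := by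
  have := Fintype.ofFinite G
  have := Fintype.ofFinite A
  have hft := Fintype.ofFinite (A →* ℂˣ)
  have hA : (IC.Irr A).card = Nat.card A := by
    have h1 : IC.Irr A = Finset.univ.image (linF : (A →* ℂˣ) → A → ℂ) := by
      ext θ
      rw [IC.mem_Irr, Finset.mem_image]
      constructor
      · intro h
        obtain ⟨l, rfl⟩ := irr_comm h
        exact ⟨l, Finset.mem_univ _, rfl⟩
      · rintro ⟨l, -, rfl⟩
        exact lin_irr l
    rw [h1, Finset.card_image_of_injective _ linF_inj, Finset.card_univ,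
      ← Nat.card_eq_fintype_card, card_hom]
  rw [tw_eq, tw_eq, sum_Irr_prod, Finset.sum_product_right]
  have h1 : ∀ l ∈ IC.Irr A, ∑ θ ∈ IC.Irr G, ψ (deg (box θ l) : ZMod p) =
      ∑ θ ∈ IC.Irr G, ψ (deg θ : ZMod p) := by
    intro l hl
    obtain ⟨l', rfl⟩ := irr_comm (IC.mem_Irr.mp hl)
    refine Finset.sum_congr rfl fun θ _ => ?_
    have h2 : (box θ (linF l')) 1 = θ 1 := by
      change θ 1 * linF l' 1 = θ 1
      simp [linF]
    unfold deg
    rw [h2]
  rw [Finset.sum_congr rfl h1, Finset.sum_const, hA, nsmul_eq_mul]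

/-! ### wreath products with cyclic groups of prime order -/

theorem sum_lev {T : Type} (S : Finset T) (V : Finset ℂ) (g : T → ℂ) (f : ℂ → ℂ)
    (h : ∀ x ∈ S, g x ∈ V) :
    ∑ x ∈ S, f (g x) = ∑ v ∈ V, ((S.filter fun x => g x = v).card : ℂ) * f v := by
  rw [← Finset.sum_fiberwise_of_maps_to h]
  refine Finset.sum_congr rfl fun v _ => ?_
  rw [Finset.sum_congr rfl fun x hx => by rw [(Finset.mem_filter.mp hx).2], Finset.sum_const,
    nsmul_eq_mul]

theorem count_w {q : ℕ} [hq : Fact q.Prime] {N : Type} [Group N] [Fintype N]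
    {φ : Cq q →* MulAut N} (f : ℂ → ℂ) :
    (q : ℂ) * ∑ χ ∈ IC.Irr (N ⋊[φ] Cq q), f (χ 1) =
      ∑ θ ∈ (IC.Irr N).filter (fun θ => ¬ Invt φ θ), f (q * θ 1) +
        q * (q * ∑ θ ∈ (IC.Irr N).filter (fun θ => Invt φ θ), f (θ 1)) := by
  set V := (IC.Irr (N ⋊[φ] Cq q)).image (fun χ => χ 1) ∪
    ((IC.Irr N).image (fun θ => (q : ℂ) * θ 1) ∪ (IC.Irr N).image (fun θ => θ 1)) with hV
  rw [sum_lev (IC.Irr (N ⋊[φ] Cq q)) V (fun χ => χ 1) f (fun x hx =>
      Finset.mem_union_left _ (Finset.mem_image_of_mem _ hx)),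
    sum_lev ((IC.Irr N).filter (fun θ => ¬ Invt φ θ)) V (fun θ => q * θ 1) f (fun x hx =>
      Finset.mem_union_right _ (Finset.mem_union_left _ (Finset.mem_image.mpr
        ⟨x, (Finset.mem_filter.mp hx).1, rfl⟩))),
    sum_lev ((IC.Irr N).filter (fun θ => Invt φ θ)) V (fun θ => θ 1) f (fun x hx =>
      Finset.mem_union_right _ (Finset.mem_union_right _ (Finset.mem_image.mpr
        ⟨x, (Finset.mem_filter.mp hx).1, rfl⟩))), Finset.mul_sum, Finset.mul_sum, Finset.mul_sum,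
    ← Finset.sum_add_distrib]
  refine Finset.sum_congr rfl fun v _ => ?_
  have h1 := count_q (q := q) (φ := φ) fun z => z = v
  rw [Finset.filter_filter, Finset.filter_filter]
  have h2 : (q : ℂ) * ((IC.Irr (N ⋊[φ] Cq q)).filter fun χ => χ 1 = v).card =
      ((IC.Irr N).filter fun θ => ¬ Invt φ θ ∧ q * θ 1 = v).card +
        q * (q * ((IC.Irr N).filter fun θ => Invt φ θ ∧ θ 1 = v).card) := by
    exact_mod_cast h1
  linear_combination f v * h2

theorem sum_tn (ψ : DirichletCharacter ℂ p) {q : ℕ} [hq : Fact q.Prime] (G : Type) [Group G]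
    [Fintype G] [i1 : Fintype (ZMod q → G)] :
    ∑ θ ∈ IC.Irr (ZMod q → G), ψ (deg θ : ZMod p) = tw ψ G ^ q := by
  have hi : i1 = Pi.instFintype := Subsingleton.elim _ _
  subst hi
  have h1 : IC.Irr (ZMod q → G) =
      (Fintype.piFinset fun _ : ZMod q => IC.Irr G).image tn := by
    ext χ
    simp only [IC.mem_Irr, Finset.mem_image, Fintype.mem_piFinset]
    constructor
    · intro h
      obtain ⟨θ, hθ, rfl⟩ := exists_tn h
      exact ⟨θ, hθ, rfl⟩
    · rintro ⟨θ, hθ, rfl⟩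
      exact tn_irr hθ
  rw [h1, Finset.sum_image]
  · have h2 : tw ψ G ^ q = ∏ _i : ZMod q, ∑ θ ∈ IC.Irr G, ψ (deg θ : ZMod p) := by
      rw [Finset.prod_const, Finset.card_univ, ZMod.card, tw_eq]
    rw [h2, Finset.prod_univ_sum]
    refine Finset.sum_congr rfl fun θ hθ => ?_
    rw [Fintype.mem_piFinset] at hθ
    have h3 : deg (tn θ) = ∏ i, deg (θ i) := by
      apply deg_eq
      rw [tn_one]
      push_cast
      exact Finset.prod_congr rfl fun i _ => deg_spec (IC.mem_Irr.mp (hθ i))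
    rw [h3]
    push_cast
    rw [map_prod]
  · intro θ hθ θ' hθ' h
    simp only [Finset.mem_coe, Fintype.mem_piFinset, IC.mem_Irr] at hθ hθ'
    exact tn_inj hθ hθ' h

theorem sum_inv (ψ : DirichletCharacter ℂ p) {q : ℕ} [hq : Fact q.Prime] (G : Type) [Group G]
    [Fintype G] [i1 : Fintype (ZMod q → G)] :
    ∑ θ ∈ (IC.Irr (ZMod q → G)).filter (fun θ => Invt (rot q G) θ), ψ (deg θ : ZMod p) =
      tw (ψ ^ q) G := by
  have hi : i1 = Pi.instFintype := Subsingleton.elim _ _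
  subst hi
  have h1 : (IC.Irr (ZMod q → G)).filter (fun θ => Invt (rot q G) θ) =
      (IC.Irr G).image fun θ => tn fun _ : ZMod q => θ := by
    ext χ
    simp only [Finset.mem_filter, IC.mem_Irr, Finset.mem_image]
    constructor
    · rintro ⟨h2, h3⟩
      obtain ⟨θ, hθ, rfl⟩ := exists_tn h2
      have h5 : θ = fun _ => θ 0 := funext fun i => (invt_tn hθ).mp h3 i
      rw [h5]
      exact ⟨θ 0, hθ 0, rfl⟩
    · rintro ⟨θ, h2, rfl⟩
      refine ⟨tn_irr fun _ => h2, ?_⟩
      exact (invt_tn (θ := fun _ => θ) fun _ => h2).mpr fun _ => rfl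
  rw [h1, Finset.sum_image, tw_eq]
  · refine Finset.sum_congr rfl fun θ hθ => ?_
    have h3 : deg (tn fun _ : ZMod q => θ) = deg θ ^ q := by
      apply deg_eq
      rw [tn_one, Finset.prod_const, Finset.card_univ, ZMod.card,
        deg_spec (IC.mem_Irr.mp hθ)]
      push_cast
      rfl
    rw [h3, MulChar.pow_apply' _ hq.out.ne_zero]
    push_cast
    rw [map_pow]
  · intro θ hθ θ' hθ' h
    simp only [Finset.mem_coe, IC.mem_Irr] at hθ hθ'
    exact congrFun (tn_inj (θ := fun _ : ZMod q => θ) (ψ := fun _ : ZMod q => θ') (fun _ => hθ)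
      (fun _ => hθ') h) 0

/-- **The sum for `G ≀ C_q`.** -/
theorem tw_wq (ψ : DirichletCharacter ℂ p) {q : ℕ} [hq : Fact q.Prime] (G : Type) [Group G]
    [Finite G] :
    (q : ℂ) * tw ψ (WQ q G) + ψ q * tw (ψ ^ q) G =
      ψ q * tw ψ G ^ q + q * (q * tw (ψ ^ q) G) := by
  have := Fintype.ofFinite G
  have : Fintype (WQ q G) := Fintype.ofFinite _
  rw [tw_congr ψ (wqSd q G), tw_eq]
  set f : ℂ → ℂ := fun z => ψ ((⌊z.re⌋₊ : ℕ) : ZMod p) with hf
  have h1 := count_w (q := q) (φ := rot q G) f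
  have e1 : ∑ χ ∈ IC.Irr ((ZMod q → G) ⋊[rot q G] Cq q), f (χ 1) =
      ∑ χ ∈ IC.Irr ((ZMod q → G) ⋊[rot q G] Cq q), ψ (deg χ : ZMod p) := rfl
  have e2 : ∑ θ ∈ (IC.Irr (ZMod q → G)).filter (fun θ => Invt (rot q G) θ), f (θ 1) =
      tw (ψ ^ q) G := sum_inv ψ G
  have e3 : ∑ θ ∈ (IC.Irr (ZMod q → G)).filter (fun θ => ¬ Invt (rot q G) θ), f (q * θ 1) =
      ψ q * ∑ θ ∈ (IC.Irr (ZMod q → G)).filter (fun θ => ¬ Invt (rot q G) θ),
        ψ (deg θ : ZMod p) := by
    rw [Finset.mul_sum]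
    refine Finset.sum_congr rfl fun θ hθ => ?_
    have h2 := deg_spec (IC.mem_Irr.mp (Finset.mem_filter.mp hθ).1)
    simp only [hf]
    rw [h2, ← Nat.cast_mul, Complex.natCast_re, Nat.floor_natCast]
    push_cast
    rw [map_mul]
  have e4 := Finset.sum_filter_add_sum_filter_not (IC.Irr (ZMod q → G))
    (fun θ => Invt (rot q G) θ) fun θ => ψ (deg θ : ZMod p)
  rw [sum_inv, sum_tn] at e4
  rw [e1, e2, e3] at h1
  rw [h1]
  linear_combination ψ q * e4

end Pool.Agent.N22.OC
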