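import Pool.Agent.N22.OC.Chr
import Mathlib.NumberTheory.DirichletCharacter.Bounds
import Mathlib.NumberTheory.MulChar.Lemmas

/-!
# One Dirichlet character decides
-/

set_option autoImplicit false
set_option linter.unusedSectionVars false

open scoped BigOperators Classical

noncomputable section

namespace Pool.Agent.N22.OC

open Pool.Agent.Q90.WR Pool.Agent.Helper884 Pool.Agent.N84.IN
open Pool.Agent.Helper884.IC (IsIrrChar)

variable {p : ℕ} [hp : Fact p.Prime]

/-- The class `X` of groups is closed under wreath products `G ≀ C_q` and direct products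
`G × C_q` with cyclic groups of prime order `q ≠ p`. -/
def ClosedCq (p : ℕ) (X : (G : Type) → [Group G] → Prop) : Prop :=
  ∀ (G : Type) [Group G] [Finite G], X G → ∀ q : ℕ, q.Prime → q ≠ p →
    X (WQ q G) ∧ X (G × Multiplicative (ZMod q))

/-- the sums for `G` and `N_G(P)` agree, for all `G` -/
def EqAll (X : (G : Type) → [Group G] → Prop) (ψ : DirichletCharacter ℂ p) : Prop :=
  ∀ (G : Type) [Group G] [Finite G] (P : Sylow p G), X G →
    tw ψ G = tw ψ (Subgroup.normalizer ((P : Subgroup G) : Set G))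

variable {X : (G : Type) → [Group G] → Prop}

theorem eqAll_prime (hX : ClosedCq p X) {ψ : DirichletCharacter ℂ p} (h : EqAll X ψ) {q : ℕ}
    [hq : Fact q.Prime] (hqp : q ≠ p) : EqAll X (ψ ^ q) := by
  intro G _ _ P hXG
  obtain ⟨Q, hQ⟩ := exists_sylowq hqp P
  have e : Nonempty (Subgroup.normalizer ((Q : Subgroup (WQ q G)) : Set (WQ q G)) ≃*
      WQ q (Subgroup.normalizer ((P : Subgroup G) : Set G))) := by
    rw [hQ]
    exact ⟨normEquivq q _⟩
  obtain ⟨e⟩ := e
  have h1 := h (WQ q G) Q (hX G hXG q hq.out hqp).1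
  rw [tw_congr ψ e] at h1
  have h2 := tw_wq ψ (q := q) G
  have h3 := tw_wq ψ (q := q) (Subgroup.normalizer ((P : Subgroup G) : Set G))
  rw [h1, h G P hXG] at h2
  set Z := tw (ψ ^ q) G
  set Y := tw (ψ ^ q) (Subgroup.normalizer ((P : Subgroup G) : Set G))
  have h4 : ((q : ℂ) * q - ψ q) * (Z - Y) = 0 := by linear_combination h3 - h2
  rcases mul_eq_zero.mp h4 with h5 | h5
  · exfalso
    have h6 : ‖ψ (q : ZMod p)‖ ≤ 1 := DirichletCharacter.norm_le_one ψ _
    have h7 : ψ (q : ZMod p) = ((q * q : ℕ) : ℂ) := by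
      push_cast
      linear_combination -h5
    rw [h7, Complex.norm_natCast] at h6
    have h8 : q * q ≤ 1 := by exact_mod_cast h6
    have := hq.out.two_le
    nlinarith
  · exact sub_eq_zero.mp h5

theorem eqAll_coprime (hX : ClosedCq p X) : ∀ (j : ℕ), 0 < j → ¬ p ∣ j →
    ∀ ψ : DirichletCharacter ℂ p, EqAll X ψ → EqAll X (ψ ^ j) := by
  intro j
  induction j using Nat.strong_induction_on with
  | _ j ih =>
    intro hj hpj ψ h
    by_cases h1 : j = 1
    · rw [h1, pow_one]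
      exact h
    · set q := j.minFac with hq
      have hqp : q.Prime := Nat.minFac_prime h1
      have : Fact q.Prime := ⟨hqp⟩
      obtain ⟨i, hi⟩ := Nat.minFac_dvd j
      rw [← hq] at hi
      have hne : q ≠ p := by
        rintro h2
        apply hpj
        rw [hi, h2]
        exact dvd_mul_right _ _
      have hi0 : 0 < i := by
        rcases Nat.eq_zero_or_pos i with h2 | h2
        · rw [h2, mul_zero] at hi
          omega
        · exact h2
      have hij : i < j := by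
        have := hqp.two_le
        nlinarith
      have h3 := ih i hij hi0 (fun h => hpj (hi ▸ Dvd.dvd.mul_left h _)) (ψ ^ q)
        (eqAll_prime hX h hne)
      rw [← pow_mul, ← hi] at h3
      exact h3

theorem pow_card (ψ : DirichletCharacter ℂ p) : ψ ^ (p - 1) = 1 := by
  apply MulChar.ext
  intro u
  rw [MulChar.pow_apply_coe, ← map_pow, ← Units.val_pow_eq_pow_val,
    ZMod.units_pow_card_sub_one_eq_one]
  simp

theorem eqAll_pow (hX : ClosedCq p X) {ψ : DirichletCharacter ℂ p} (h : EqAll X ψ) {j : ℕ}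
    (hj : 0 < j) : EqAll X (ψ ^ j) := by
  by_cases hpj : p ∣ j
  · have h1 : ψ ^ j = ψ ^ (j + (p - 1)) := by rw [pow_add, pow_card, mul_one]
    rw [h1]
    apply eqAll_coprime hX _ (by omega) _ ψ h
    intro h2
    have h3 : p ∣ p - 1 := (Nat.dvd_add_right hpj).mp h2
    have h4 := hp.out.two_le
    have h5 := Nat.le_of_dvd (by omega) h3
    omega
  · exact eqAll_coprime hX j hj hpj ψ h

/-- the value of `ψ` at a class modulo its kernel -/
def zv (ψ : DirichletCharacter ℂ p) (a : (ZMod p)ˣ ⧸ ψ.toUnitHom.ker) : ℂ :=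
  ((QuotientGroup.kerLift ψ.toUnitHom a : ℂˣ) : ℂ)

theorem zv_mk (ψ : DirichletCharacter ℂ p) (u : (ZMod p)ˣ) :
    zv ψ (u : (ZMod p)ˣ ⧸ ψ.toUnitHom.ker) = ψ u := by
  unfold zv
  rw [QuotientGroup.kerLift_mk, MulChar.coe_toUnitHom]

theorem zv_inj (ψ : DirichletCharacter ℂ p) : Function.Injective (zv ψ) := by
  intro a b h
  exact QuotientGroup.kerLift_injective _ (Units.ext h)

theorem zv_ne (ψ : DirichletCharacter ℂ p) (a : (ZMod p)ˣ ⧸ ψ.toUnitHom.ker) : zv ψ a ≠ 0 :=
  Units.ne_zero _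

theorem tw_cls (ψ : DirichletCharacter ℂ p) {j : ℕ} (hj : 0 < j) (G : Type) [Group G] [Finite G] :
    tw (ψ ^ j) G = ∑ a, (numCls p ψ.toUnitHom.ker a G : ℂ) * zv ψ a ^ j := by
  have := Fintype.ofFinite G
  rw [tw_eq]
  have h1 : ∀ χ ∈ IC.Irr G, (ψ ^ j) (deg χ : ZMod p) =
      ∑ a, (if HasCls p ψ.toUnitHom.ker a χ then zv ψ a ^ j else 0) := by
    intro χ hχ
    have h2 := deg_spec (IC.mem_Irr.mp hχ)
    by_cases h0 : (deg χ : ZMod p) = 0
    · rw [Finset.sum_eq_zero]
      · rw [h0]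
        exact MulChar.map_zero _
      · intro a _
        rw [if_neg fun h => h.ne_zero h2 h0]
    · have h3 := hasCls_mk0 (B := ψ.toUnitHom.ker) h2 h0
      rw [Finset.sum_eq_single
        ((Units.mk0 (deg χ : ZMod p) h0 : (ZMod p)ˣ) : (ZMod p)ˣ ⧸ ψ.toUnitHom.ker)]
      · rw [if_pos h3, zv_mk, Units.val_mk0, MulChar.pow_apply' _ hj.ne']
      · intro b _ hb
        rw [if_neg fun h => hb (h.unique h3)]
      · intro h
        exact absurd (Finset.mem_univ _) h
  rw [Finset.sum_congr rfl h1, Finset.sum_comm]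
  refine Finset.sum_congr rfl fun a _ => ?_
  rw [← Finset.sum_filter, Finset.sum_const, numCls_eq, nsmul_eq_mul]

/-- a system of power sums -/
theorem vander {A : Type} [Fintype A] {z : A → ℂ} (hz : Function.Injective z)
    (hz0 : ∀ a, z a ≠ 0) {d : A → ℂ} (h : ∀ j : ℕ, 0 < j → ∑ a, d a * z a ^ j = 0) (a : A) :
    d a = 0 := by
  have h1 : ∀ Q : Polynomial ℂ, ∑ b, d b * (z b * Q.eval (z b)) = 0 := by
    intro Q
    have h2 : ∀ b, d b * (z b * Q.eval (z b)) =
        ∑ i ∈ Finset.range (Q.natDegree + 1), Q.coeff i * (d b * z b ^ (i + 1)) := by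
      intro b
      rw [Polynomial.eval_eq_sum_range, Finset.mul_sum, Finset.mul_sum]
      refine Finset.sum_congr rfl fun i _ => ?_
      ring
    rw [Finset.sum_congr rfl fun b _ => h2 b, Finset.sum_comm]
    refine Finset.sum_eq_zero fun i _ => ?_
    rw [← Finset.mul_sum, h (i + 1) (Nat.succ_pos i), mul_zero]
  have h2 := h1 (∏ b ∈ Finset.univ.erase a, (Polynomial.X - Polynomial.C (z b)))
  rw [Finset.sum_eq_single a] at h2
  · rcases mul_eq_zero.mp h2 with h3 | h3
    · exact h3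
    · exfalso
      rcases mul_eq_zero.mp h3 with h4 | h4
      · exact hz0 a h4
      · rw [Polynomial.eval_prod, Finset.prod_eq_zero_iff] at h4
        obtain ⟨b, hb, h5⟩ := h4
        rw [Polynomial.eval_sub, Polynomial.eval_X, Polynomial.eval_C, sub_eq_zero] at h5
        exact (Finset.mem_erase.mp hb).1 (hz h5.symm)
  · intro b _ hb
    rw [Polynomial.eval_prod, Finset.prod_eq_zero (Finset.mem_erase.mpr ⟨hb, Finset.mem_univ b⟩),
      mul_zero, mul_zero]
    simp
  · intro h3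
    exact absurd (Finset.mem_univ _) h3

/-- There is a bijection between the irreducible characters of `G` and of `N` of degree prime to `p`
which preserves the values of `ψ` at the degrees. -/
def HasBijChar (ψ : DirichletCharacter ℂ p) (G N : Type) [Group G] [Group N] : Prop :=
  ∃ f : IrrP p G → IrrP p N, Function.Bijective f ∧
    ∀ χ : IrrP p G, ψ (deg (f χ).1 : ZMod p) = ψ (deg χ.1 : ZMod p)

theorem deg_irrP {G : Type} [Group G] (χ : IrrP p G) :
    χ.1 1 = deg χ.1 ∧ (deg χ.1 : ZMod p) ≠ 0 := by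
  obtain ⟨n, h1, h2⟩ := χ.2.2
  rw [deg_eq h1.symm]
  refine ⟨h1.symm, ?_⟩
  rwa [Ne, ZMod.natCast_eq_zero_iff]

theorem zv_clsOf (ψ : DirichletCharacter ℂ p) {G : Type} [Group G] (χ : IrrP p G) :
    zv ψ (clsOf ψ.toUnitHom.ker χ) = ψ (deg χ.1 : ZMod p) := by
  obtain ⟨h1, h2⟩ := deg_irrP χ
  rw [clsOf_eq.mpr (hasCls_mk0 h1 h2), zv_mk, Units.val_mk0]

theorem hasBijChar_iff (ψ : DirichletCharacter ℂ p) {G N : Type} [Group G] [Group N] [Finite G]
    [Finite N] : HasBijChar ψ G N ↔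
      ∀ a, numCls p ψ.toUnitHom.ker a G = numCls p ψ.toUnitHom.ker a N := by
  rw [← bijMod_iff]
  constructor
  · rintro ⟨f, h1, h2⟩
    refine ⟨Equiv.ofBijective f h1, fun χ => cls_rel.mp (zv_inj ψ ?_)⟩
    rw [zv_clsOf, zv_clsOf]
    exact (h2 χ).symm
  · rintro ⟨f, hf⟩
    refine ⟨f, f.bijective, fun χ => ?_⟩
    rw [← zv_clsOf, ← zv_clsOf, cls_rel.mpr (hf χ)]

/-- **One Dirichlet character decides.** -/
theorem eqAll_iff (hX : ClosedCq p X) (ψ : DirichletCharacter ℂ p) : EqAll X ψ ↔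
    ∀ (G : Type) [Group G] [Finite G] (P : Sylow p G), X G →
      HasBijChar ψ G (Subgroup.normalizer ((P : Subgroup G) : Set G)) := by
  constructor
  · intro h G _ _ P hXG
    rw [hasBijChar_iff]
    intro a
    have h1 := vander (zv_inj ψ) (zv_ne ψ) (d := fun a => (numCls p ψ.toUnitHom.ker a G : ℂ) -
      numCls p ψ.toUnitHom.ker a (Subgroup.normalizer ((P : Subgroup G) : Set G)))
      (fun j hj => by
        have h2 := eqAll_pow hX h hj G P hXG
        rw [tw_cls ψ hj, tw_cls ψ hj] at h2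
        simp only [sub_mul, Finset.sum_sub_distrib]
        rw [h2, sub_self]) a
    have h3 := sub_eq_zero.mp h1
    exact_mod_cast h3
  · intro h G _ _ P hXG
    have h1 := (hasBijChar_iff ψ).mp (h G P hXG)
    have h2 := tw_cls ψ one_pos G
    have h3 := tw_cls ψ one_pos (Subgroup.normalizer ((P : Subgroup G) : Set G))
    rw [pow_one] at h2 h3
    rw [h2, h3]
    exact Finset.sum_congr rfl fun a _ => by rw [h1 a]

/-- the asymptotic equality -/
def Asym (X : (G : Type) → [Group G] → Prop) (ψ : DirichletCharacter ℂ p) : Prop :=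
  ∀ ε : ℝ, 0 < ε → ∃ C : ℕ, ∀ (G : Type) [Group G] [Finite G] (P : Sylow p G), X G →
    C ≤ Nat.card G →
    ‖tw ψ G - tw ψ (Subgroup.normalizer ((P : Subgroup G) : Set G))‖ ≤ ε * Nat.card G

theorem eqAll_of_asym (hX : ClosedCq p X) {ψ : DirichletCharacter ℂ p} (h : Asym X ψ) :
    EqAll X ψ := by
  intro G _ _ P hXG
  rw [← sub_eq_zero, ← norm_le_zero_iff]
  have hG : (0 : ℝ) < Nat.card G := by exact_mod_cast Nat.card_pos
  refine le_of_forall_pos_le_add fun δ hδ => ?_
  rw [zero_add]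
  obtain ⟨C, hC⟩ := h (δ / Nat.card G) (by positivity)
  obtain ⟨m, hm1, hm2⟩ := Nat.exists_infinite_primes (C + p + 1)
  have : NeZero m := ⟨hm2.ne_zero⟩
  have hA : Nat.card (Multiplicative (ZMod m)) = m := by
    rw [Nat.card_congr Multiplicative.toAdd, Nat.card_zmod]
  have hpm : ¬ p ∣ Nat.card (Multiplicative (ZMod m)) := by
    rw [hA]
    intro h2
    have := (Nat.prime_dvd_prime_iff_eq hp.out hm2).mp h2
    omega
  obtain ⟨Q, ⟨e⟩⟩ := exists_sylow_prod hpm P
  have h1 := hC (G × Multiplicative (ZMod m)) Q (hX G hXG m hm2 (by omega)).2 (by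
    rw [Nat.card_prod, hA]
    have h3 : 1 ≤ Nat.card G := Nat.card_pos
    have h4 : m ≤ Nat.card G * m := Nat.le_mul_of_pos_left m h3
    omega)
  rw [tw_congr ψ e, tw_abel, tw_abel, ← mul_sub, norm_mul, Complex.norm_natCast, Nat.card_prod,
    hA] at h1
  have hm0 : (0 : ℝ) < m := by exact_mod_cast hm2.pos
  have h2 : δ / (Nat.card G : ℝ) * ((Nat.card G * m : ℕ) : ℝ) = m * δ := by
    push_cast
    field_simp
  rw [h2] at h1
  exact le_of_mul_le_mul_left h1 hm0

/-- There are Dirichlet characters modulo `p` with kernel `{±1}`. -/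
theorem exists_ker_pm (p : ℕ) [hp : Fact p.Prime] :
    ∃ ψ : DirichletCharacter ℂ p, ∀ x : ZMod p, ψ x = 1 ↔ x = 1 ∨ x = -1 := by
  obtain ⟨g, hg⟩ := IsCyclic.exists_generator (α := (ZMod p)ˣ)
  have hp2 := hp.out.two_le
  have hζ := Complex.isPrimitiveRoot_exp (p - 1) (by omega)
  set ζ : ℂ := Complex.exp (2 * Real.pi * Complex.I / (p - 1 : ℕ)) with hζd
  have hz0 : ζ ≠ 0 := hζ.ne_zero (by omega)
  have hmem : Units.mk0 ζ hz0 ∈ rootsOfUnity (Fintype.card (ZMod p)ˣ) ℂ := by
    rw [mem_rootsOfUnity, ZMod.card_units]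
    apply Units.ext
    rw [Units.val_pow_eq_pow_val, Units.val_mk0]
    exact hζ.pow_eq_one
  set ψ₀ : MulChar (ZMod p) ℂ := MulChar.ofRootOfUnity hmem hg with hψ₀
  have hψg : ψ₀ g = ζ := by
    rw [hψ₀, MulChar.ofRootOfUnity_spec hmem hg]
    rfl
  have hog : orderOf g = p - 1 := by
    rw [orderOf_eq_card_of_forall_mem_zpowers hg, Nat.card_eq_fintype_card, ZMod.card_units]
  have key : ∀ u : (ZMod p)ˣ, (ψ₀ ^ 2) u = 1 ↔ u ^ 2 = 1 := by
    intro u
    obtain ⟨i, hi⟩ := (mem_powers_iff_mem_zpowers.mpr (hg u))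
    have hi' : g ^ i = u := hi
    rw [← hi', MulChar.pow_apply_coe, Units.val_pow_eq_pow_val, map_pow, hψg, ← pow_mul, ← pow_mul,
      hζ.pow_eq_one_iff_dvd, ← hog, orderOf_dvd_iff_pow_eq_one]
  refine ⟨ψ₀ ^ 2, fun x => ?_⟩
  constructor
  · intro h
    have hx : x ≠ 0 := by
      rintro rfl
      rw [MulChar.map_zero] at h
      exact zero_ne_one h
    have h1 := (key (Units.mk0 x hx)).mp h
    have h2 := congrArg (fun u : (ZMod p)ˣ => (u : ZMod p)) h1
    simp only [Units.val_pow_eq_pow_val, Units.val_mk0, Units.val_one] at h2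
    exact mul_self_eq_one_iff.mp (by rw [← sq]; exact h2)
  · intro h
    have hx : x ≠ 0 := by
      rcases h with rfl | rfl
      · exact one_ne_zero
      · exact neg_ne_zero.mpr one_ne_zero
    refine (key (Units.mk0 x hx)).mpr ?_
    apply Units.ext
    simp only [Units.val_pow_eq_pow_val, Units.val_mk0, Units.val_one]
    rcases h with rfl | rfl
    · exact one_pow 2
    · ring

/-- for a character with kernel `{±1}` -/
theorem keeps_of_ker {ψ : DirichletCharacter ℂ p}
    (hψ : ∀ x : ZMod p, ψ x = 1 ↔ x = 1 ∨ x = -1) {G N : Type} [Group G] [Group N]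
    (f : IrrP p G → IrrP p N) :
    (∀ χ : IrrP p G, ψ (deg (f χ).1 : ZMod p) = ψ (deg χ.1 : ZMod p)) ↔ Keeps p f := by
  refine forall_congr' fun χ => ?_
  obtain ⟨h1, h2⟩ := deg_irrP χ
  obtain ⟨h3, h4⟩ := deg_irrP (f χ)
  set m := deg χ.1
  set n := deg (f χ).1
  have h5 : ψ (n : ZMod p) = ψ (m : ZMod p) ↔ ψ ((n : ZMod p) * (m : ZMod p)⁻¹) = 1 := by
    have h6 : ψ (m : ZMod p) ≠ 0 := by
      intro h7
      have h8 : ψ (m : ZMod p) * ψ (m : ZMod p)⁻¹ = 1 := by
        rw [← map_mul, mul_inv_cancel₀ h2, MulChar.map_one]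
      rw [h7, zero_mul] at h8
      exact zero_ne_one h8
    have h7 : ψ (n : ZMod p) = ψ ((n : ZMod p) * (m : ZMod p)⁻¹) * ψ (m : ZMod p) := by
      rw [← map_mul, inv_mul_cancel_right₀ h2]
    constructor
    · intro h8
      rw [h8] at h7
      exact (mul_right_cancel₀ h6 ((one_mul _).trans h7)).symm
    · intro h8
      rw [h7, h8, one_mul]
  rw [h5, hψ]
  constructor
  · intro h6
    refine ⟨m, h1, n, h3, ?_⟩
    rcases h6 with h6 | h6
    · left
      rwa [mul_inv_eq_one₀ h2] at h6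
    · right
      rw [mul_inv_eq_iff_eq_mul₀ h2] at h6
      rw [h6]
      ring
  · rintro ⟨m', e1, n', e2, h6⟩
    have e3 : m' = m := by exact_mod_cast e1.symm.trans h1
    have e4 : n' = n := by exact_mod_cast e2.symm.trans h3
    rw [e3, e4] at h6
    rcases h6 with h6 | h6
    · left
      rw [h6, mul_inv_cancel₀ h2]
    · right
      rw [h6, neg_mul, mul_inv_cancel₀ h2]

end Pool.Agent.N22.OC
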