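import Pool.Agent.N84.IN.Bij
import Pool.Agent.Q90.WR.Dad

/-!
# The character degrees of Frobenius groups with abelian kernel and abelian complement
-/

set_option autoImplicit false
set_option linter.unusedSectionVars false

open scoped BigOperators Classical

noncomputable section

namespace Pool.Agent.N22.OC

open Pool.Agent.Q90.WR Pool.Agent.H254R3.IN Pool.Agent.Helper884 Pool.Agent.N19.RB
open Pool.Agent.Q259.BW Pool.Agent.Q288.MB
open SemidirectProduct (inl)

section basic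

variable {G : Type} [Group G] [Fintype G]

/-- linear characters are irreducible -/
theorem lin_irr (l : G →* ℂˣ) : IC.IsIrrChar (fun g => ((l g : ℂˣ) : ℂ)) := by
  apply irr_of_norm
  · intro g y
    simp only [map_mul, map_inv]
    rw [mul_comm (l y), mul_assoc, mul_inv_cancel, mul_one]
  · intro χ hχ
    obtain ⟨W, _, _, _, σ, hσ, rfl⟩ := hχ
    obtain ⟨n, hn⟩ := B_nat (IC.oneRep l) σ
    refine ⟨n, ?_⟩
    rw [show (IC.oneRep l).character = fun g => ((l g : ℂˣ) : ℂ) from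
      funext fun g => IC.oneRep_char l g] at hn
    rw [hn]
    push_cast
    rfl
  · unfold IC.B
    have : ∀ g : G, ((l g : ℂˣ) : ℂ) * ((l g⁻¹ : ℂˣ) : ℂ) = 1 := by
      intro g
      rw [← Units.val_mul, ← map_mul, mul_inv_cancel, map_one, Units.val_one]
    rw [Finset.sum_congr rfl fun g _ => this g, Finset.sum_const, Finset.card_univ, nsmul_eq_mul,
      mul_one, ← Nat.card_eq_fintype_card, inv_mul_cancel₀ IC.cardG_ne]
  · exact ⟨1, by simp⟩

/-- the sum of the squares of the degrees -/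
theorem sum_sq : ∑ χ ∈ IC.Irr G, χ 1 * χ 1 = Nat.card G := by
  set δ : G → ℂ := fun g => if g = 1 then 1 else 0 with hδ
  have hcl : IC.IsClass δ := by
    intro g y
    simp only [hδ]
    by_cases h : g = 1
    · rw [if_pos h, if_pos (by rw [h]; group)]
    · rw [if_neg h, if_neg]
      intro h'
      exact h (conj_eq_one_iff.mp h')
  have h1 := IC.B_expand δ δ hcl
  have h2 : ∀ f : G → ℂ, IC.B δ f = (Nat.card G : ℂ)⁻¹ * f 1 := by
    intro f
    unfold IC.B
    rw [Finset.sum_eq_single 1]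
    · simp [hδ]
    · intro b _ hb
      simp [hδ, hb]
    · intro h
      exact absurd (Finset.mem_univ _) h
  have h3 : δ 1 = 1 := by simp [hδ]
  have hc : (Nat.card G : ℂ) ≠ 0 := IC.cardG_ne
  rw [h2, h3, mul_one] at h1
  have h4 : ∑ χ ∈ IC.Irr G, IC.B δ χ * IC.B χ δ =
      (Nat.card G : ℂ)⁻¹ * (Nat.card G : ℂ)⁻¹ * ∑ χ ∈ IC.Irr G, χ 1 * χ 1 := by
    rw [Finset.mul_sum]
    refine Finset.sum_congr rfl fun χ _ => ?_
    rw [IC.B_comm χ, h2]
    ring
  rw [h4] at h1
  field_simp at h1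
  exact (Finset.sum_congr rfl fun χ _ => (sq _).symm).trans h1.symm

end basic

section comm

variable {N : Type} [CommGroup N] [Fintype N]

/-- the linear characters as functions -/
def linF (l : N →* ℂˣ) : N → ℂ := fun n => ((l n : ℂˣ) : ℂ)

theorem linF_inj : Function.Injective (linF : (N →* ℂˣ) → N → ℂ) := by
  intro l m h
  ext n
  exact congrFun h n

instance finHom : Finite (N →* ℂˣ) := by
  have := (CommGroup.monoidHom_mulEquiv_of_hasEnoughRootsOfUnity N ℂ).some
  exact Finite.of_equiv _ this.symm.toEquiv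

theorem card_hom : Nat.card (N →* ℂˣ) = Nat.card N :=
  CommGroup.card_monoidHom_of_hasEnoughRootsOfUnity N ℂ

theorem irr_comm {θ : N → ℂ} (h : IC.IsIrrChar θ) : ∃ l : N →* ℂˣ, θ = linF l := by
  have hft := Fintype.ofFinite (N →* ℂˣ)
  have hsub : (Finset.univ.image (linF : (N →* ℂˣ) → N → ℂ)) ⊆ IC.Irr N := by
    intro f hf
    obtain ⟨l, -, rfl⟩ := Finset.mem_image.mp hf
    exact IC.mem_Irr.mpr (lin_irr l)
  have hc : (Finset.univ.image (linF : (N →* ℂˣ) → N → ℂ)).card = Nat.card N := by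
    rw [Finset.card_image_of_injective _ linF_inj, Finset.card_univ, ← Nat.card_eq_fintype_card,
      card_hom]
  have he := Finset.eq_of_subset_of_card_le hsub (by rw [hc]; exact card_Irr_le N)
  have h1 : θ ∈ Finset.univ.image (linF : (N →* ℂˣ) → N → ℂ) := by
    rw [he]
    exact IC.mem_Irr.mpr h
  obtain ⟨l, -, rfl⟩ := Finset.mem_image.mp h1
  exact ⟨l, rfl⟩

end comm

section frob

variable {N K : Type} [CommGroup N] [Fintype N] [CommGroup K] [Fintype K] {φ : K →* MulAut N}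

/-- the characters of the complement, inflated -/
def infl (φ : K →* MulAut N) (l : K →* ℂˣ) : N ⋊[φ] K → ℂ := fun x => ((l x.right : ℂˣ) : ℂ)

theorem infl_irr (l : K →* ℂˣ) : IC.IsIrrChar (infl φ l) :=
  lin_irr (l.comp SemidirectProduct.rightHom)

theorem infl_inj : Function.Injective (infl φ) := by
  intro l m h
  ext n
  exact congrFun h (SemidirectProduct.inr n)

theorem B_one_one : IC.B (indP φ (1 : N → ℂ)) (indP φ (1 : N → ℂ)) = Nat.card K := by
  rw [B_indP (1 : N → ℂ) (indP_cl (fun _ _ => rfl))]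
  simp only [indP_inl]
  unfold IC.B
  have hc : (Nat.card N : ℂ) ≠ 0 := IC.cardG_ne
  simp [Finset.sum_const, Finset.card_univ]

theorem B_one_infl (l : K →* ℂˣ) : IC.B (indP φ (1 : N → ℂ)) (infl φ l) = 1 := by
  rw [B_indP (1 : N → ℂ) (infl_irr l).isClass]
  unfold IC.B infl
  simp [Finset.sum_const, Finset.card_univ]

theorem one_irr : IsIrr (1 : N → ℂ) := by
  have := lin_irr (1 : N →* ℂˣ)
  have h : (fun g : N => (((1 : N →* ℂˣ) g : ℂˣ) : ℂ)) = 1 := by
    funext g
    simp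
  rw [h] at this
  exact this

/-- the characters above the trivial one -/
theorem above_one {χ : N ⋊[φ] K → ℂ} (hχ : IC.IsIrrChar χ)
    (h : IC.B (indP φ (1 : N → ℂ)) χ ≠ 0) : ∃ l : K →* ℂˣ, χ = infl φ l := by
  have hft := Fintype.ofFinite (K →* ℂˣ)
  choose! a ha using fun (χ' : N ⋊[φ] K → ℂ) (h : IsIrr χ') => mult_nat (φ := φ) one_irr h
  have hsum : ∑ χ ∈ IC.Irr (N ⋊[φ] K), a χ * a χ = Nat.card K := by
    have h1 := B_one_one (φ := φ)
    rw [IC.B_expand _ _ (indP_cl (fun _ _ => rfl))] at h1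
    have h4 : ∑ χ' ∈ IC.Irr (N ⋊[φ] K), IC.B (indP φ (1 : N → ℂ)) χ' *
        IC.B χ' (indP φ (1 : N → ℂ)) = ((∑ χ' ∈ IC.Irr (N ⋊[φ] K), a χ' * a χ' : ℕ) : ℂ) := by
      push_cast
      refine Finset.sum_congr rfl fun χ' h => ?_
      rw [IC.B_comm χ', ha χ' (IC.mem_Irr.mp h)]
    rw [h4] at h1
    exact_mod_cast h1
  set I := Finset.univ.image (infl φ) with hI
  have hIc : I.card = Nat.card K := by
    rw [hI, Finset.card_image_of_injective _ infl_inj, Finset.card_univ,
      ← Nat.card_eq_fintype_card, card_hom]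
  have hIs : I ⊆ IC.Irr (N ⋊[φ] K) := by
    intro χ h
    obtain ⟨j, -, rfl⟩ := Finset.mem_image.mp h
    exact IC.mem_Irr.mpr (infl_irr j)
  have hIa : ∀ χ ∈ I, a χ = 1 := by
    intro χ h
    obtain ⟨j, -, rfl⟩ := Finset.mem_image.mp h
    have h1 := ha _ (infl_irr (φ := φ) j)
    rw [B_one_infl] at h1
    exact_mod_cast h1.symm
  have hsplit := Finset.sum_sdiff (f := fun χ => a χ * a χ) hIs
  have h5 : ∑ χ ∈ I, a χ * a χ = Nat.card K := by
    rw [Finset.sum_congr rfl fun χ h => by rw [hIa χ h], Finset.sum_const, hIc, smul_eq_mul,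
      mul_one, mul_one]
  rw [hsum, h5] at hsplit
  have h7 : ∑ χ ∈ IC.Irr (N ⋊[φ] K) \ I, a χ * a χ = 0 := by omega
  by_contra hcon
  have hI' : χ ∉ I := by
    intro h8
    obtain ⟨j, -, h9⟩ := Finset.mem_image.mp h8
    exact hcon ⟨j, h9.symm⟩
  have h9 := (Finset.sum_eq_zero_iff.mp h7) χ (Finset.mem_sdiff.mpr ⟨IC.mem_Irr.mpr hχ, hI'⟩)
  have h10 : a χ = 0 := by
    rcases Nat.mul_eq_zero.mp h9 with h | h <;> exact h
  apply h
  rw [ha χ hχ, h10, Nat.cast_zero]

/-- nontrivial characters of the kernel have trivial stabilisers -/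
def Free (φ : K →* MulAut N) : Prop :=
  ∀ l : N →* ℂˣ, l ≠ 1 → ∀ t : K, (∀ n, l (φ t n) = l n) → t = 1

theorem irr_cases (hf : Free φ) {χ : N ⋊[φ] K → ℂ} (hχ : IC.IsIrrChar χ) :
    (∃ l : K →* ℂˣ, χ = infl φ l) ∨ χ 1 = Nat.card K := by
  obtain ⟨θ, hθ, hB⟩ := exists_below hχ
  obtain ⟨l, rfl⟩ := irr_comm hθ
  by_cases hl : l = 1
  · left
    apply above_one hχ
    have : linF l = (1 : N → ℂ) := by
      funext n
      simp [linF, hl]
    rwa [this] at hB
  · right
    have hd : Dis φ {linF l} := by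
      intro ψ hψ t ht
      rw [Set.mem_singleton_iff.mp hψ] at ht
      apply hf l hl t
      intro n
      exact Units.ext (congrFun (Set.mem_singleton_iff.mp ht) n)
    have h4 : χ ∈ Cov φ {linF l} := ⟨hχ, linF l, rfl, hB⟩
    rw [Cov_Dis (by rintro _ rfl; exact hθ) hd] at h4
    obtain ⟨ψ, hψ, rfl⟩ := h4
    rw [Set.mem_singleton_iff.mp hψ, indP_one]
    simp [linF]

theorem card_one (hf : Free φ) (hK : 2 ≤ Nat.card K) :
    ((IC.Irr (N ⋊[φ] K)).filter fun χ => χ 1 = 1).card = Nat.card K := by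
  have hft := Fintype.ofFinite (K →* ℂˣ)
  have h1 : (IC.Irr (N ⋊[φ] K)).filter (fun χ => χ 1 = 1) = Finset.univ.image (infl φ) := by
    ext χ
    rw [Finset.mem_filter, Finset.mem_image, IC.mem_Irr]
    constructor
    · rintro ⟨h1, h2⟩
      rcases irr_cases hf h1 with ⟨l, rfl⟩ | h3
      · exact ⟨l, Finset.mem_univ _, rfl⟩
      · rw [h2] at h3
        have : Nat.card K = 1 := by exact_mod_cast h3.symm
        omega
    · rintro ⟨l, -, rfl⟩
      exact ⟨infl_irr l, by simp [infl]⟩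
  rw [h1, Finset.card_image_of_injective _ infl_inj, Finset.card_univ,
    ← Nat.card_eq_fintype_card, card_hom]

theorem deg_cases (hf : Free φ) {χ : N ⋊[φ] K → ℂ} (hχ : IC.IsIrrChar χ) :
    χ 1 = 1 ∨ χ 1 = Nat.card K := by
  rcases irr_cases hf hχ with ⟨l, rfl⟩ | h3
  · left
    simp [infl]
  · exact Or.inr h3

theorem card_big (hf : Free φ) (hK : 2 ≤ Nat.card K) :
    Nat.card K * ((IC.Irr (N ⋊[φ] K)).filter fun χ => χ 1 = (Nat.card K : ℂ)).card + 1 =
      Nat.card N := by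
  have h1 := sum_sq (G := N ⋊[φ] K)
  have hK0 : (Nat.card K : ℂ) ≠ 1 := by
    intro h
    have : Nat.card K = 1 := by exact_mod_cast h
    omega
  have h2 : ∑ χ ∈ IC.Irr (N ⋊[φ] K), χ 1 * χ 1 =
      ∑ χ ∈ IC.Irr (N ⋊[φ] K), ((if χ 1 = 1 then (1 : ℂ) else 0) +
        (if χ 1 = Nat.card K then (Nat.card K : ℂ) * Nat.card K else 0)) := by
    refine Finset.sum_congr rfl fun χ hχ => ?_
    rcases deg_cases hf (IC.mem_Irr.mp hχ) with h | h
    · rw [h, if_pos rfl, if_neg (fun h => hK0 h.symm)]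
      ring
    · rw [h, if_neg hK0, if_pos rfl]
      ring
  rw [h2, Finset.sum_add_distrib, ← Finset.sum_filter, ← Finset.sum_filter, Finset.sum_const,
    Finset.sum_const, card_one hf hK, card_sd, nsmul_eq_mul, nsmul_eq_mul] at h1
  have h3 : Nat.card K * 1 + ((IC.Irr (N ⋊[φ] K)).filter fun χ => χ 1 = (Nat.card K : ℂ)).card *
      (Nat.card K * Nat.card K) = Nat.card N * Nat.card K := by exact_mod_cast h1
  have h4 : 0 < Nat.card K := by omega
  apply Nat.eq_of_mul_eq_mul_right h4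
  rw [← h3]
  ring

end frob

end Pool.Agent.N22.OC
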