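import Pool.Agent.N22.OC.Prd

/-!
# One class of degrees decides
-/

set_option autoImplicit false
set_option linter.unusedSectionVars false

open scoped BigOperators Classical

noncomputable section

namespace Pool.Agent.N22.OC

open Pool.Agent.Q90.WR Pool.Agent.Helper884 Pool.Agent.N84.IN
open Pool.Agent.Helper884.IC (IsIrrChar)

variable {p : ℕ} [hp : Fact p.Prime] {B : Subgroup (ZMod p)ˣ}

/-- natural numbers in a given class, divisible by `l` -/
theorem exists_nat (c : (ZMod p)ˣ ⧸ B) {l : ℕ} (hl : (l : ZMod p) ≠ 0) :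
    ∃ k : ℕ, 2 ≤ k ∧ l ∣ k ∧ ∃ hk : (k : ZMod p) ≠ 0, cl B hk = c := by
  induction c using QuotientGroup.induction_on with
  | H u =>
    have hl0 : 0 < l := by
      rcases Nat.eq_zero_or_pos l with h | h
      · rw [h] at hl
        simp at hl
      · exact h
    set m := ((u : ZMod p) * (l : ZMod p)⁻¹).val + p with hm
    have h1 : (m : ZMod p) = (u : ZMod p) * (l : ZMod p)⁻¹ := by
      rw [hm]
      push_cast
      rw [ZMod.natCast_zmod_val]
      simp
    have h2 : ((l * m : ℕ) : ZMod p) = u := by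
      push_cast
      rw [h1]
      field_simp
    have hk : ((l * m : ℕ) : ZMod p) ≠ 0 := by
      rw [h2]
      exact u.ne_zero
    refine ⟨l * m, ?_, Dvd.intro _ rfl, hk, ?_⟩
    · have h3 : 2 ≤ m := by
        have := hp.out.two_le
        omega
      calc 2 ≤ m := h3
        _ = 1 * m := (one_mul m).symm
        _ ≤ l * m := Nat.mul_le_mul_right m hl0
    · unfold cl
      congr 1
      apply Units.ext
      rw [Units.val_mk0, h2]

/-- the asymptotic inequality -/
def Small (p : ℕ) [Fact p.Prime] (B : Subgroup (ZMod p)ˣ) (c : (ZMod p)ˣ ⧸ B) (σ : ℤ) : Prop :=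
  ∀ ε : ℝ, 0 < ε → ∃ C : ℕ, ∀ (G : Type) [Group G] [Finite G] (P : Sylow p G), C ≤ Nat.card G →
    ((σ * Df p B c G P : ℤ) : ℝ) ≤ ε * Nat.card G

/-- **One class decides**, asymptotically. -/
theorem nonpos_of_small {c : (ZMod p)ˣ ⧸ B} {σ : ℤ} (h : Small p B c σ) (a : (ZMod p)ˣ ⧸ B)
    (G : Type) [Group G] [Finite G] (P : Sylow p G) : σ * Df p B a G P ≤ 0 := by
  by_contra hcon
  obtain ⟨k, hk2, -, hk, hkc⟩ := exists_nat (B := B) (a⁻¹ * c) (l := 1) (by simp)
  set x := σ * Df p B c G P with hx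
  set y := σ * Df p B a G P with hy
  have hy1 : 1 ≤ y := by omega
  have hG : (0 : ℝ) < Nat.card G := by exact_mod_cast Nat.card_pos
  have hkR : (2 : ℝ) ≤ k := by exact_mod_cast hk2
  obtain ⟨C, hC⟩ := h (1 / (4 * k ^ 2 * Nat.card G)) (by positivity)
  obtain ⟨r, s, hr, hn, hrs, -⟩ := exists_prime k 1 hk2 (one_dvd k) one_ne_zero
    (p + C + k * (2 * k * x.natAbs + 1) + 1)
  have : Fact r.Prime := ⟨hr⟩
  obtain ⟨F, i1, i2, Q, h1, h2⟩ := Df_frob (B := B) P (k := k) (r := r) (s := s) (by omega) hk hk2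
    hrs
  have hcard : Nat.card (G × F) = Nat.card G * (r * k) := by rw [Nat.card_prod, h1]
  have hle : C ≤ Nat.card (G × F) := by
    rw [hcard]
    have h3 : 1 ≤ Nat.card G := Nat.card_pos
    have h4 : r ≤ r * k := Nat.le_mul_of_pos_right r (by omega)
    have h5 : r * k ≤ Nat.card G * (r * k) := Nat.le_mul_of_pos_left _ h3
    omega
  have h3 := hC (G × F) Q hle
  rw [h2 c] at h3
  have hca : c * (cl B hk)⁻¹ = a := by
    rw [hkc]
    group
  rw [hca, hcard] at h3
  have h4 : σ * (k * Df p B c G P + s * Df p B a G P) = k * x + s * y := by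
    rw [hx, hy]; ring
  rw [h4] at h3
  have hs0 : 2 * k * x.natAbs + 1 < s := by
    have h5 : k * (2 * k * x.natAbs + 1) < k * s := by omega
    exact Nat.lt_of_mul_lt_mul_left h5
  have h5 : (1 / (4 * k ^ 2 * (Nat.card G : ℝ))) * ((Nat.card G * (r * k) : ℕ) : ℝ) =
      (r : ℝ) / (4 * k) := by
    push_cast
    field_simp
  rw [h5] at h3
  have h6 : (r : ℝ) / (4 * k) ≤ s / 2 := by
    rw [div_le_div_iff₀ (by positivity) (by norm_num)]
    have h7 : (r : ℝ) = k * s + 1 := by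
      rw [hrs]; push_cast; ring
    have hsR : (1 : ℝ) ≤ s := by
      have : 1 ≤ s := by omega
      exact_mod_cast this
    rw [h7]
    nlinarith
  have h7 : (k * x + s * y : ℤ) * 2 ≤ s := by
    have h8 : ((k * x + s * y : ℤ) : ℝ) ≤ s / 2 := h3.trans h6
    have h9 : ((k * x + s * y : ℤ) : ℝ) * 2 ≤ s := by linarith
    exact_mod_cast h9
  have h8 : (s : ℤ) * 1 ≤ s * y := mul_le_mul_of_nonneg_left hy1 (by positivity)
  have h9 : -(x.natAbs : ℤ) ≤ x := by omega
  have h10 : (k : ℤ) * (-(x.natAbs : ℤ)) ≤ k * x := mul_le_mul_of_nonneg_left h9 (by positivity)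
  have h11 : (2 * k * x.natAbs + 1 : ℤ) < s := by exact_mod_cast hs0
  nlinarith

/-- **One class decides**, modulo a prime. -/
theorem dvd_of_one {c : (ZMod p)ˣ ⧸ B} {l : ℕ} [hl : Fact l.Prime] (hlp : l ≠ p)
    (a : (ZMod p)ˣ ⧸ B) (G : Type) [Group G] [Finite G] (P : Sylow p G)
    (h0 : (l : ℤ) ∣ Df p B c G P)
    (h : ∀ (F : Type) [Group F] [Finite F] (Q : Sylow p (G × F)), ¬ p ∣ Nat.card F →
      (l : ℤ) ∣ Df p B c (G × F) Q) : (l : ℤ) ∣ Df p B a G P := by
  have hl1 : (l : ZMod p) ≠ 0 := by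
    rw [Ne, ZMod.natCast_eq_zero_iff]
    exact fun h => hlp ((Nat.prime_dvd_prime_iff_eq hp.out hl.out).mp h).symm
  obtain ⟨k, hk2, hlk, hk, hkc⟩ := exists_nat (B := B) (a⁻¹ * c) hl1
  obtain ⟨r, s, hr, hn, hrs, hsl⟩ := exists_prime k l hk2 hlk hl.out.ne_zero p
  have : Fact r.Prime := ⟨hr⟩
  obtain ⟨F, i1, i2, Q, h1, h2⟩ := Df_frob (B := B) P (k := k) (r := r) (s := s) (by omega) hk hk2
    hrs
  have hca : c * (cl B hk)⁻¹ = a := by
    rw [hkc]
    group
  have h3 := h F Q (by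
    rw [h1]
    intro h
    rcases (Nat.Prime.dvd_mul hp.out).mp h with h | h
    · have := (Nat.prime_dvd_prime_iff_eq hp.out hr).mp h
      omega
    · exact hk ((ZMod.natCast_eq_zero_iff _ _).mpr h))
  rw [h2 c, hca] at h3
  have h4 : (l : ℤ) ∣ s * Df p B a G P := by
    have h5 : (l : ℤ) ∣ k * Df p B c G P := Dvd.dvd.mul_left h0 _
    exact (dvd_add_right h5).mp h3
  have h5 : Prime (l : ℤ) := Nat.prime_iff_prime_int.mp hl.out
  rcases h5.dvd_or_dvd h4 with h6 | h6
  · exfalso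
    have h7 : (l : ℤ) ∣ 1 := by
      have h8 := hsl.dvd
      have h9 := dvd_add h8 h6
      simpa using h9
    exact h5.not_dvd_one h7
  · exact h6

/-- injections and numbers -/
theorem inj_of_le {G N : Type} [Group G] [Group N] [Finite G] [Finite N]
    (h : ∀ a, numCls p B a G ≤ numCls p B a N) :
    ∃ f : IrrP p G → IrrP p N, Function.Injective f ∧ ∀ χ, clsOf B (f χ) = clsOf B χ := by
  have := finite_IrrP (p := p) (G := G)
  have := finite_IrrP (p := p) (G := N)
  have e : ∀ a, ∃ f : {χ : IrrP p G // clsOf B χ = a} → {ψ : IrrP p N // clsOf B ψ = a},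
      Function.Injective f := by
    intro a
    have h1 : Nat.card {χ : IrrP p G // clsOf B χ = a} ≤
        Nat.card {ψ : IrrP p N // clsOf B ψ = a} := by
      rw [card_fib, card_fib]
      exact h a
    refine ⟨(Finite.equivFin _).symm ∘ Fin.castLE h1 ∘ (Finite.equivFin _), ?_⟩
    exact (Finite.equivFin _).symm.injective.comp
      ((Fin.castLE_injective h1).comp (Finite.equivFin _).injective)
  choose f hf using e
  refine ⟨fun χ => (f (clsOf B χ) ⟨χ, rfl⟩).1, ?_, fun χ => (f (clsOf B χ) ⟨χ, rfl⟩).2⟩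
  intro χ ψ hχψ
  have h1 : clsOf B χ = clsOf B ψ := by
    have h2 := (f (clsOf B χ) ⟨χ, rfl⟩).2
    have h3 := (f (clsOf B ψ) ⟨ψ, rfl⟩).2
    rw [← h2, ← h3]
    exact congrArg _ hχψ
  have h2 : ∀ (a b : (ZMod p)ˣ ⧸ B) (hab : a = b) (x : {χ : IrrP p G // clsOf B χ = a})
      (y : {χ : IrrP p G // clsOf B χ = b}), (f a x).1 = (f b y).1 → x.1 = y.1 := by
    rintro a b rfl x y hxy
    exact congrArg Subtype.val (hf a (Subtype.ext hxy))
  exact h2 _ _ h1 ⟨χ, rfl⟩ ⟨ψ, rfl⟩ hχψ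

theorem le_of_inj {G N : Type} [Group G] [Group N] [Finite G] [Finite N]
    {f : IrrP p G → IrrP p N} (hf : Function.Injective f) (hc : ∀ χ, clsOf B (f χ) = clsOf B χ)
    (a : (ZMod p)ˣ ⧸ B) : numCls p B a G ≤ numCls p B a N := by
  have := finite_IrrP (p := p) (G := G)
  have := finite_IrrP (p := p) (G := N)
  rw [← card_fib, ← card_fib]
  refine Nat.card_le_card_of_injective
    (fun χ : {χ : IrrP p G // clsOf B χ = a} =>
      (⟨f χ.1, by rw [hc, χ.2]⟩ : {ψ : IrrP p N // clsOf B ψ = a})) ?_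
  intro χ ψ h
  exact Subtype.ext (hf (congrArg Subtype.val h))

end Pool.Agent.N22.OC
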