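import Pool.Agent.N22.OC.One

/-!
# Degrees up to sign
-/

set_option autoImplicit false
set_option linter.unusedSectionVars false

open scoped BigOperators Classical

noncomputable section

namespace Pool.Agent.N22.OC

open Pool.Agent.Q90.WR Pool.Agent.Helper884 Pool.Agent.N84.IN
open Pool.Agent.Helper884.IC (IsIrrChar)
open Pool.Agent.N19.RB (numCh)

/-- The degree `χ 1` is a natural number which is congruent to `k` or `- k` modulo `p`. -/
def DegMod (p k : ℕ) {G : Type} [Group G] (χ : G → ℂ) : Prop :=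
  ∃ n : ℕ, χ 1 = n ∧ ((n : ZMod p) = k ∨ (n : ZMod p) = -k)

/-- The number of irreducible complex characters of `G` whose degree is congruent to `± k`
modulo `p`. -/
def numMod (p k : ℕ) (G : Type) [Group G] : ℕ :=
  Nat.card {χ : G → ℂ // IsIrrChar χ ∧ DegMod p k χ}

/-- The number of irreducible complex characters of `G` whose degree is congruent to `± k`
modulo `p` and whose number of Galois conjugates is not divisible by `q`. -/
def numModCo (q p k : ℕ) (G : Type) [Group G] : ℕ :=
  Nat.card {χ : G → ℂ // (IsIrrChar χ ∧ DegMod p k χ) ∧ ¬ q ∣ numCh χ}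

variable (p : ℕ) [hp : Fact p.Prime]

/-- the subgroup `{±1}` -/
def pm : Subgroup (ZMod p)ˣ where
  carrier := {u | u = 1 ∨ u = -1}
  one_mem' := Or.inl rfl
  mul_mem' := by
    rintro u v (rfl | rfl) (rfl | rfl) <;> simp
  inv_mem' := by
    rintro u (rfl | rfl) <;> simp

theorem mem_pm {u : (ZMod p)ˣ} : u ∈ pm p ↔ u = 1 ∨ u = -1 := Iff.rfl

theorem index_pm : (pm p).index = (p - 1) / 2 ∨ p = 2 := by
  by_cases h2 : p = 2
  · exact Or.inr h2
  left
  have h3 : Fact (2 < p) := ⟨lt_of_le_of_ne hp.out.two_le (Ne.symm h2)⟩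
  have hne : (1 : (ZMod p)ˣ) ≠ -1 := by
    intro h
    have h4 := congrArg (fun u : (ZMod p)ˣ => (u : ZMod p)) h
    simp only [Units.val_one, Units.val_neg] at h4
    exact ZMod.neg_one_ne_one h4.symm
  have hc : Nat.card (pm p) = 2 := by
    change Nat.card ({u | u = 1 ∨ u = -1} : Set (ZMod p)ˣ) = 2
    rw [show ({u | u = 1 ∨ u = -1} : Set (ZMod p)ˣ) = {1, -1} from rfl, Nat.card_coe_set_eq,
      Set.ncard_pair hne]
  have h5 := (pm p).card_mul_index
  rw [hc, Nat.card_eq_fintype_card, ZMod.card_units] at h5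
  omega

variable {p}

/-- the class of `k` -/
def clk (p : ℕ) [Fact p.Prime] {k : ℕ} (hk : ¬ p ∣ k) : (ZMod p)ˣ ⧸ pm p :=
  ((Units.mk0 (k : ZMod p) (by rwa [Ne, ZMod.natCast_eq_zero_iff]) : (ZMod p)ˣ) :
    (ZMod p)ˣ ⧸ pm p)

theorem hasCls_clk {G : Type} [Group G] {χ : G → ℂ} {k : ℕ} (hk : ¬ p ∣ k) :
    HasCls p (pm p) (clk p hk) χ ↔ DegMod p k χ := by
  have hk0 : (k : ZMod p) ≠ 0 := by rwa [Ne, ZMod.natCast_eq_zero_iff]
  constructor
  · rintro ⟨n, v, h1, h2, h3⟩
    refine ⟨n, h1, ?_⟩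
    unfold clk at h3
    rw [QuotientGroup.eq, mem_pm] at h3
    rw [h2]
    rcases h3 with h3 | h3
    · left
      rw [inv_mul_eq_one.mp h3]
      rfl
    · right
      rw [inv_mul_eq_iff_eq_mul] at h3
      have h4 := congrArg (fun u : (ZMod p)ˣ => (u : ZMod p)) h3
      simp only [Units.val_mul, Units.val_neg, Units.val_one, Units.val_mk0] at h4
      rw [h4]
      ring
  · rintro ⟨n, h1, h2 | h2⟩
    · exact ⟨n, Units.mk0 (k : ZMod p) hk0, h1, h2, rfl⟩
    · refine ⟨n, -Units.mk0 (k : ZMod p) hk0, h1, by rw [h2]; simp, ?_⟩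
      unfold clk
      rw [QuotientGroup.eq, mem_pm]
      right
      simp

theorem numCls_clk {G : Type} [Group G] {k : ℕ} (hk : ¬ p ∣ k) :
    numCls p (pm p) (clk p hk) G = numMod p k G :=
  Nat.card_congr (Equiv.subtypeEquivRight fun _ => and_congr_right fun _ => hasCls_clk hk)

theorem numCo_clk {q : ℕ} {G : Type} [Group G] {k : ℕ} (hk : ¬ p ∣ k) :
    numCo q p (pm p) (clk p hk) G = numModCo q p k G :=
  Nat.card_congr (Equiv.subtypeEquivRight fun _ =>
    and_congr_left fun _ => and_congr_right fun _ => hasCls_clk hk)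

/-- The map `f` preserves the degrees up to sign modulo `p`. -/
def Keeps (p : ℕ) {G N : Type} [Group G] [Group N] (f : IrrP p G → IrrP p N) : Prop :=
  ∀ χ : IrrP p G, ∃ m : ℕ, χ.1 1 = m ∧ DegMod p m (f χ).1

theorem keeps_iff {G N : Type} [Group G] [Group N] {f : IrrP p G → IrrP p N} :
    Keeps p f ↔ ∀ χ, clsOf (pm p) (f χ) = clsOf (pm p) χ := by
  refine forall_congr' fun χ => ?_
  rw [eq_comm, cls_rel]
  constructor
  · rintro ⟨m', h1, n', h2, h3⟩ m n hm hn
    have e1 : m' = m := by exact_mod_cast h1.symm.trans hm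
    have e2 : n' = n := by exact_mod_cast h2.symm.trans hn
    subst e1 e2
    rcases h3 with h3 | h3
    · exact ⟨1, Or.inl rfl, by rw [h3]; simp⟩
    · exact ⟨-1, Or.inr rfl, by rw [h3]; simp⟩
  · intro h
    obtain ⟨m, h1, -⟩ := χ.2.2
    obtain ⟨n, h2, -⟩ := (f χ).2.2
    obtain ⟨b, hb, h3⟩ := h m n h1.symm h2.symm
    refine ⟨m, h1.symm, n, h2.symm, ?_⟩
    rcases hb with rfl | rfl
    · left
      rw [h3]; simp
    · right
      rw [h3]; simp

theorem exists_inj {G N : Type} [Group G] [Finite G] [Group N] [Finite N] :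
    (∃ f : IrrP p G → IrrP p N, Function.Injective f ∧ Keeps p f) ↔
      ∀ a, numCls p (pm p) a G ≤ numCls p (pm p) a N := by
  constructor
  · rintro ⟨f, h1, h2⟩ a
    exact le_of_inj h1 (keeps_iff.mp h2) a
  · intro h
    obtain ⟨f, h1, h2⟩ := inj_of_le h
    exact ⟨f, h1, keeps_iff.mpr h2⟩

theorem exists_bij {G N : Type} [Group G] [Finite G] [Group N] [Finite N] :
    (∃ f : IrrP p G → IrrP p N, Function.Bijective f ∧ Keeps p f) ↔
      ∀ a, numCls p (pm p) a G = numCls p (pm p) a N := by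
  have := finite_IrrP (p := p) (G := G)
  have := finite_IrrP (p := p) (G := N)
  constructor
  · rintro ⟨f, h1, h2⟩ a
    apply le_antisymm (le_of_inj h1.1 (keeps_iff.mp h2) a)
    set e := Equiv.ofBijective f h1 with he
    refine le_of_inj (f := e.symm) e.symm.injective (fun χ => ?_) a
    have h3 := keeps_iff.mp h2 (e.symm χ)
    rw [← h3]
    congr 1
    exact e.apply_symm_apply χ
  · intro h
    rw [← bijMod_iff] at h
    obtain ⟨f, hf⟩ := h
    exact ⟨f, f.bijective, keeps_iff.mpr fun χ => (cls_rel.mpr (hf χ)).symm⟩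

/-- an injection is a bijection, if the numbers of characters are the same -/
theorem bij_iff_inj {G N : Type} [Group G] [Finite G] [Group N] [Finite N]
    (h : Nat.card (IrrP p G) = Nat.card (IrrP p N)) :
    (∃ f : IrrP p G → IrrP p N, Function.Bijective f ∧ Keeps p f) ↔
      ∃ f : IrrP p G → IrrP p N, Function.Injective f ∧ Keeps p f := by
  have := finite_IrrP (p := p) (G := G)
  have := finite_IrrP (p := p) (G := N)
  constructor
  · rintro ⟨f, h1, h2⟩
    exact ⟨f, h1.1, h2⟩
  · rintro ⟨f, h1, h2⟩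
    exact ⟨f, (Nat.bijective_iff_injective_and_card f).mpr ⟨h1, h⟩, h2⟩

theorem bij_iff_inj' {G N : Type} [Group G] [Finite G] [Group N] [Finite N]
    (h : Nat.card (IrrP p G) = Nat.card (IrrP p N)) :
    (∃ f : IrrP p G → IrrP p N, Function.Bijective f ∧ Keeps p f) ↔
      ∃ f : IrrP p N → IrrP p G, Function.Injective f ∧ Keeps p f := by
  rw [← bij_iff_inj h.symm, exists_bij, exists_bij]
  exact forall_congr' fun a => eq_comm

/-- degree classes for a direct product with an arbitrary group -/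
theorem numCls_prod_eq {B : Subgroup (ZMod p)ˣ} {G N F : Type} [Group G] [Finite G] [Group N]
    [Finite N] [Group F] [Finite F] (h : ∀ a, numCls p B a G = numCls p B a N)
    (a : (ZMod p)ˣ ⧸ B) : numCls p B a (G × F) = numCls p B a (N × F) := by
  have := Fintype.ofFinite G
  have := Fintype.ofFinite N
  have := Fintype.ofFinite F
  have key : ∀ {H : Type} [Group H] [Fintype H], ∀ ψ ∈ IC.Irr F,
      ∑ θ ∈ IC.Irr H, (if HasCls p B a (box θ ψ) then 1 else 0) =
        ∑ b : (ZMod p)ˣ ⧸ B, if HasCls p B b ψ then numCls p B (a * b⁻¹) H else 0 := by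
    intro H _ _ ψ hψ
    simp only [numCls_eq, Finset.card_filter]
    have h1 : ∀ b : (ZMod p)ˣ ⧸ B, (if HasCls p B b ψ then
        ∑ θ ∈ IC.Irr H, (if HasCls p B (a * b⁻¹) θ then 1 else 0) else 0) =
        ∑ θ ∈ IC.Irr H, (if HasCls p B b ψ ∧ HasCls p B (a * b⁻¹) θ then 1 else 0) := by
      intro b
      by_cases hb : HasCls p B b ψ
      · rw [if_pos hb]
        exact Finset.sum_congr rfl fun θ _ => by simp [hb]
      · rw [if_neg hb]
        symm
        exact Finset.sum_eq_zero fun θ _ => by simp [hb]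
    rw [Finset.sum_congr rfl fun b _ => h1 b, Finset.sum_comm]
    refine Finset.sum_congr rfl fun θ hθ => ?_
    obtain ⟨m, -, hm⟩ := deg_pos (IC.mem_Irr.mp hθ)
    obtain ⟨n, -, hn⟩ := deg_pos (IC.mem_Irr.mp hψ)
    by_cases hn0 : (n : ZMod p) = 0
    · rw [if_neg, Finset.sum_eq_zero]
      · intro b _
        rw [if_neg]
        rintro ⟨h2, -⟩
        exact h2.ne_zero hn hn0
      · intro h2
        have h3 : (box θ ψ) 1 = ((m * n : ℕ) : ℂ) := by
          change θ 1 * ψ 1 = _
          rw [hm, hn]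
          push_cast
          rfl
        apply h2.ne_zero h3
        push_cast
        rw [hn0, mul_zero]
    · have hcl : HasCls p B (cl B hn0) ψ := ⟨n, Units.mk0 (n : ZMod p) hn0, hn, rfl, rfl⟩
      rw [Finset.sum_eq_single (cl B hn0)]
      · have h2 : (box θ ψ) 1 = n * θ 1 := by
          change θ 1 * ψ 1 = n * θ 1
          rw [hn, mul_comm]
        rw [if_congr (hasCls_mul hn0 hm h2 a) rfl rfl]
        simp [hcl]
      · intro b _ hb
        rw [if_neg]
        rintro ⟨h2, -⟩
        exact hb (h2.unique hcl)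
      · intro h2
        exact absurd (Finset.mem_univ _) h2
  have key2 : ∀ {H : Type} [Group H] [Fintype H], numCls p B a (H × F) = ∑ ψ ∈ IC.Irr F,
      ∑ b : (ZMod p)ˣ ⧸ B, if HasCls p B b ψ then numCls p B (a * b⁻¹) H else 0 := by
    intro H _ _
    rw [numCls_eq, Finset.card_filter, sum_Irr_prod, Finset.sum_product_right]
    exact Finset.sum_congr rfl fun ψ hψ => key ψ hψ
  rw [key2, key2]
  simp only [h]

end Pool.Agent.N22.OC
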